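import Pool.Agent.H4.G61.Deg

/-! The extremal structure. -/

namespace Pool.Agent.H4.G61

open H20 Finset

variable {V : Type*} [DecidableEq V] (G : SimpleGraph V) [DecidableRel G.Adj]

/-- `S = Z ⊔ B ⊔ C`, `G[Z]` is a double star with centres `x`, `y`. -/
structure Dat (m : ℕ) (S Z B C : Finset V) (x y : V) : Prop where
  hS : S = Z ∪ (B ∪ C)
  cZ : Z.card = m + 1
  cB : B.card = m
  cC : C.card = m
  xZ : x ∈ Z
  yZ : y ∈ Z
  xy : G.Adj x y
  ZB : ∀ z ∈ Z, ∀ b ∈ B, G.Adj z b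
  ZC : ∀ z ∈ Z, ∀ c ∈ C, G.Adj z c
  BC : ∀ b ∈ B, ∀ c ∈ C, G.Adj b c
  iB : ∀ b ∈ B, ∀ b' ∈ B, ¬ G.Adj b b'
  iC : ∀ c ∈ C, ∀ c' ∈ C, ¬ G.Adj c c'
  st : ∀ z ∈ Z, z ≠ x → z ≠ y → (G.Adj z x ∧ ¬ G.Adj z y) ∨ (¬ G.Adj z x ∧ G.Adj z y)
  iZ : ∀ z ∈ Z, z ≠ x → z ≠ y → ∀ w ∈ Z, w ≠ x → w ≠ y → ¬ G.Adj z w

/-- The extremal family. -/
def KM (m : ℕ) (S : Finset V) : Prop := ∃ (Z B C : Finset V) (x y : V), Dat G m S Z B C x y

variable {G}

namespace Dat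

variable {m : ℕ} {S Z B C : Finset V} {x y : V}

lemma swapBC (D : Dat G m S Z B C x y) : Dat G m S Z C B x y where
  hS := by rw [D.hS, union_comm B C]
  cZ := D.cZ
  cB := D.cC
  cC := D.cB
  xZ := D.xZ
  yZ := D.yZ
  xy := D.xy
  ZB := D.ZC
  ZC := D.ZB
  BC := fun b hb c hc => (D.BC c hc b hb).symm
  iB := D.iC
  iC := D.iB
  st := D.st
  iZ := D.iZ

lemma swapxy (D : Dat G m S Z B C x y) : Dat G m S Z B C y x where
  hS := D.hS
  cZ := D.cZ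
  cB := D.cB
  cC := D.cC
  xZ := D.yZ
  yZ := D.xZ
  xy := D.xy.symm
  ZB := D.ZB
  ZC := D.ZC
  BC := D.BC
  iB := D.iB
  iC := D.iC
  st := fun z hz h1 h2 => by have := D.st z hz h2 h1; tauto
  iZ := fun z hz h1 h2 w hw h3 h4 => D.iZ z hz h2 h1 w hw h4 h3

lemma dZB (D : Dat G m S Z B C x y) : Disjoint Z B :=
  disjoint_left.2 fun a h1 h2 => G.irrefl (D.ZB a h1 a h2)

lemma dZC (D : Dat G m S Z B C x y) : Disjoint Z C :=
  disjoint_left.2 fun a h1 h2 => G.irrefl (D.ZC a h1 a h2)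

lemma dBC (D : Dat G m S Z B C x y) : Disjoint B C :=
  disjoint_left.2 fun a h1 h2 => G.irrefl (D.BC a h1 a h2)

lemma dg_split (D : Dat G m S Z B C x y) (t : V) :
    dg G S t = dg G Z t + (dg G B t + dg G C t) := by
  rw [D.hS, dg_union (disjoint_union_right.2 ⟨D.dZB, D.dZC⟩), dg_union D.dBC]

lemma card (D : Dat G m S Z B C x y) : S.card = 3 * m + 1 := by
  rw [D.hS, card_union_of_disjoint (disjoint_union_right.2 ⟨D.dZB, D.dZC⟩),
    card_union_of_disjoint D.dBC, D.cZ, D.cB, D.cC]; ring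

lemma ZS (D : Dat G m S Z B C x y) {z : V} (hz : z ∈ Z) : z ∈ S := by
  rw [D.hS]; exact mem_union_left _ hz

lemma BS (D : Dat G m S Z B C x y) {z : V} (hz : z ∈ B) : z ∈ S := by
  rw [D.hS]; exact mem_union_right _ (mem_union_left _ hz)

lemma CS (D : Dat G m S Z B C x y) {z : V} (hz : z ∈ C) : z ∈ S := by
  rw [D.hS]; exact mem_union_right _ (mem_union_right _ hz)

end Dat

/-- `u` is the centre of a star on `Z`. -/
structure Star (G : SimpleGraph V) (Z : Finset V) (u : V) : Prop where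
  uZ : u ∈ Z
  ad : ∀ z ∈ Z, z ≠ u → G.Adj u z
  ind : ∀ z ∈ Z, ∀ w ∈ Z, z ≠ u → w ≠ u → ¬ G.Adj z w

/-- type B -/
structure TB (G : SimpleGraph V) (Z B C : Finset V) (t : V) : Prop where
  aZ : ∀ z ∈ Z, G.Adj t z
  nB : ∀ b ∈ B, ¬ G.Adj t b
  aC : ∀ c ∈ C, G.Adj t c

/-- type Z -/
structure TZ (G : SimpleGraph V) (Z B C : Finset V) (t z0 : V) : Prop where
  mZ : z0 ∈ Z
  aZ : ∀ z ∈ Z, G.Adj t z ↔ z = z0
  aB : ∀ b ∈ B, G.Adj t b
  aC : ∀ c ∈ C, G.Adj t c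

/-- weird type B -/
structure WB (G : SimpleGraph V) (Z B C : Finset V) (t u b0 : V) : Prop where
  st : Star G Z u
  nu : ¬ G.Adj t u
  aZ : ∀ z ∈ Z, z ≠ u → G.Adj t z
  mB : b0 ∈ B
  aB : ∀ b ∈ B, G.Adj t b ↔ b = b0
  aC : ∀ c ∈ C, G.Adj t c

/-- type B or weird type B -/
def IsB (G : SimpleGraph V) (Z B C : Finset V) (t : V) : Prop :=
  TB G Z B C t ∨ ∃ u b0, WB G Z B C t u b0

lemma TZ.swap {Z B C : Finset V} {t z0 : V} (h : TZ G Z B C t z0) : TZ G Z C B t z0 :=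
  ⟨h.mZ, h.aZ, h.aC, h.aB⟩

lemma Star.unique {Z : Finset V} {u v : V} (h : Star G Z u) (h' : Star G Z v)
    (hZ : 3 ≤ Z.card) : u = v := by
  by_contra hne
  have : 0 < ((Z.erase u).erase v).card := by
    have h1 := card_erase_of_mem h.uZ
    have h2 : v ∈ Z.erase u := mem_erase.2 ⟨fun e => hne e.symm, h'.uZ⟩
    rw [card_erase_of_mem h2]; omega
  obtain ⟨z, hz⟩ := card_pos.1 this
  have hz1 : z ≠ v := ne_of_mem_erase hz
  have hz2 := mem_of_mem_erase hz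
  have hz3 : z ≠ u := ne_of_mem_erase hz2
  have hz4 := mem_of_mem_erase hz2
  exact h'.ind u h.uZ z hz4 hne hz1 (h.ad z hz4 hz3)

namespace Dat

variable {m : ℕ} {S Z B C : Finset V} {x y : V}

/-- Re-representation in the star case. -/
lemma rerep (D : Dat G m S Z B C x y) {u b0 : V} (hu : Star G Z u) (hb : b0 ∈ B) :
    Dat G m S (insert u B) (Z.erase u) C u b0 where
  hS := by
    rw [D.hS]
    ext a
    simp only [mem_union, mem_insert, mem_erase]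
    have := hu.uZ
    by_cases e : a = u
    · subst e; simp [this]
    · simp [e]; tauto
  cZ := by
    rw [card_insert_of_notMem, D.cB]
    exact fun h => disjoint_left.1 D.dZB hu.uZ h
  cB := by rw [card_erase_of_mem hu.uZ, D.cZ]; rfl
  cC := D.cC
  xZ := mem_insert_self _ _
  yZ := mem_insert_of_mem hb
  xy := D.ZB u hu.uZ b0 hb
  ZB := by
    intro z hz b hb'
    rcases mem_insert.1 hz with e | hz
    · subst e; exact hu.ad b (mem_of_mem_erase hb') (ne_of_mem_erase hb')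
    · exact (D.ZB b (mem_of_mem_erase hb') z hz).symm
  ZC := by
    intro z hz c hc
    rcases mem_insert.1 hz with e | hz
    · subst e; exact D.ZC z hu.uZ c hc
    · exact D.BC z hz c hc
  BC := fun b hb' c hc => D.ZC b (mem_of_mem_erase hb') c hc
  iB := fun b hb' b' hb'' => hu.ind b (mem_of_mem_erase hb') b' (mem_of_mem_erase hb'')
    (ne_of_mem_erase hb') (ne_of_mem_erase hb'')
  iC := D.iC
  st := by
    intro z hz h1 h2
    rcases mem_insert.1 hz with e | hz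
    · exact absurd e h1
    · exact Or.inl ⟨(D.ZB u hu.uZ z hz).symm, D.iB z hz b0 hb⟩
  iZ := by
    intro z hz h1 h2 w hw h3 h4
    rcases mem_insert.1 hz with e | hz
    · exact absurd e h1
    rcases mem_insert.1 hw with e | hw
    · exact absurd e h3
    exact D.iB z hz w hw

lemma WB_TZ (D : Dat G m S Z B C x y) {t u b0 : V} (h : WB G Z B C t u b0) :
    TZ G (insert u B) (Z.erase u) C t b0 where
  mZ := mem_insert_of_mem h.mB
  aZ := by
    intro z hz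
    rcases mem_insert.1 hz with e | hz
    · subst e
      constructor
      · intro h'; exact absurd h' h.nu
      · intro e
        have h1 := D.ZB z h.st.uZ b0 h.mB
        rw [e] at h1; exact absurd h1 G.irrefl
    · exact h.aB z hz
  aB := fun b hb => h.aZ b (mem_of_mem_erase hb) (ne_of_mem_erase hb)
  aC := h.aC

lemma TB_TZ (D : Dat G m S Z B C x y) {t u : V} (hu : Star G Z u) (h : TB G Z B C t) :
    TZ G (insert u B) (Z.erase u) C t u where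
  mZ := mem_insert_self _ _
  aZ := by
    intro z hz
    rcases mem_insert.1 hz with e | hz
    · subst e; simp [h.aZ z hu.uZ]
    · constructor
      · intro h'; exact absurd h' (h.nB z hz)
      · intro e; subst e; exact h.aZ z hu.uZ
  aB := fun b hb => h.aZ b (mem_of_mem_erase hb)
  aC := h.aC

/-- Nonadjacent vertices of a double star. -/
lemma dist (D : Dat G m S Z B C x y) {z w : V} (hz : z ∈ Z) (hw : w ∈ Z) (hne : z ≠ w)
    (h : ¬ G.Adj z w) : (∃ u ∈ Z, G.Adj z u ∧ G.Adj u w) ∨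
      ∃ u ∈ Z, ∃ v ∈ Z, G.Adj z u ∧ G.Adj u v ∧ G.Adj v w ∧ z ≠ v ∧ u ≠ w := by
  by_cases hzx : z = x
  · subst hzx
    have hwy : w ≠ y := fun e => h (e ▸ D.xy)
    have hwx : w ≠ z := fun e => hne e.symm
    rcases D.st w hw hwx hwy with ⟨h1, _⟩ | ⟨_, h1⟩
    · exact absurd h1.symm h
    · exact Or.inl ⟨y, D.yZ, D.xy, h1.symm⟩
  by_cases hzy : z = y
  · subst hzy
    have hwx : w ≠ x := fun e => h (e ▸ D.xy.symm)
    have hwy : w ≠ z := fun e => hne e.symm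
    rcases D.st w hw hwx hwy with ⟨h1, _⟩ | ⟨_, h1⟩
    · exact Or.inl ⟨x, D.xZ, D.xy.symm, h1.symm⟩
    · exact absurd h1.symm h
  by_cases hwx : w = x
  · subst hwx
    rcases D.st z hz hzx hzy with ⟨h1, _⟩ | ⟨_, h1⟩
    · exact absurd h1 h
    · exact Or.inl ⟨y, D.yZ, h1, D.xy.symm⟩
  by_cases hwy : w = y
  · subst hwy
    rcases D.st z hz hzx hzy with ⟨h1, _⟩ | ⟨_, h1⟩
    · exact Or.inl ⟨x, D.xZ, h1, D.xy⟩
    · exact absurd h1 h
  rcases D.st z hz hzx hzy with ⟨h1, _⟩ | ⟨_, h1⟩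
  · rcases D.st w hw hwx hwy with ⟨h2, _⟩ | ⟨_, h2⟩
    · exact Or.inl ⟨x, D.xZ, h1, h2.symm⟩
    · exact Or.inr ⟨x, D.xZ, y, D.yZ, h1, D.xy, h2.symm, hzy, fun e => hwx e.symm⟩
  · rcases D.st w hw hwx hwy with ⟨h2, _⟩ | ⟨_, h2⟩
    · exact Or.inr ⟨y, D.yZ, x, D.xZ, h1, D.xy.symm, h2.symm, hzx, fun e => hwy e.symm⟩
    · exact Or.inl ⟨y, D.yZ, h1, h2.symm⟩

lemma jnZ (D : Dat G m S Z B C x y) {z b b' c c' : V} (hz : z ∈ Z) (hb : b ∈ B) (hb' : b' ∈ B)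
    (hc : c ∈ C) (hc' : c' ∈ C) : Jn G b b' c c' z :=
  ⟨D.ZB z hz b hb, D.ZB z hz b' hb', D.ZC z hz c hc, D.ZC z hz c' hc'⟩

lemma q4 (D : Dat G m S Z B C x y) {b b' c c' : V} (hb : b ∈ B) (hb' : b' ∈ B)
    (hc : c ∈ C) (hc' : c' ∈ C) (h1 : b ≠ b') (h2 : c ≠ c') : Q4 G b b' c c' :=
  ⟨h1, h2, D.BC b hb c hc, D.BC b hb c' hc', D.BC b' hb' c hc, D.BC b' hb' c' hc'⟩

/-- two of type Z. -/
lemma notZZ (D : Dat G m S Z B C x y) (F : Forb G) (hm : 2 ≤ m) {t t' z0 z1 : V}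
    (ht : t ∉ S) (ht' : t' ∉ S) (htt : G.Adj t t') (h : TZ G Z B C t z0) (h' : TZ G Z B C t' z1) :
    False := by
  obtain ⟨b, hb, b', hb', hbb⟩ := one_lt_card.1 (show 1 < B.card by rw [D.cB]; omega)
  obtain ⟨c, hc, c', hc', hcc⟩ := one_lt_card.1 (show 1 < C.card by rw [D.cC]; omega)
  have H := D.q4 hb hb' hc hc' hbb hcc
  have jt : Jn G b b' c c' t := ⟨h.aB b hb, h.aB b' hb', h.aC c hc, h.aC c' hc'⟩
  have jt' : Jn G b b' c c' t' := ⟨h'.aB b hb, h'.aB b' hb', h'.aC c hc, h'.aC c' hc'⟩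
  have jz : ∀ z ∈ Z, Jn G b b' c c' z := fun z hz => D.jnZ hz hb hb' hc hc'
  have n1 : ∀ z ∈ Z, t ≠ z := fun z hz e => ht (e ▸ D.ZS hz)
  have n2 : ∀ z ∈ Z, t' ≠ z := fun z hz e => ht' (e ▸ D.ZS hz)
  have a0 : G.Adj t z0 := (h.aZ z0 h.mZ).2 rfl
  have a1 : G.Adj t' z1 := (h'.aZ z1 h'.mZ).2 rfl
  by_cases e : z0 = z1
  · subst e
    exact F.k5 htt a0 jt.a1 jt.a3 a1 jt'.a1 jt'.a3 (jz z0 h.mZ).a1 (jz z0 h.mZ).a3 H.a1
  by_cases e2 : G.Adj z0 z1
  · exact F.c4 H jt jt' (jz z1 h'.mZ) (jz z0 h.mZ) htt a1 e2.symm a0.symm (n1 _ h'.mZ)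
      (n2 _ h.mZ)
  rcases D.dist h.mZ h'.mZ e e2 with ⟨u, hu, u1, u2⟩ | ⟨u, hu, v, hv, u1, u2, u3, u4, u5⟩
  · exact F.p5 H jt (jz z0 h.mZ) (jz u hu) (jz z1 h'.mZ) jt' a0 u1 u2 a1.symm (n1 _ hu)
      (n1 _ h'.mZ) htt.ne e (n2 _ h.mZ).symm (n2 _ hu).symm
  · exact F.p5 H jt (jz z0 h.mZ) (jz u hu) (jz v hv) (jz z1 h'.mZ) a0 u1 u2 u3 (n1 _ hu)
      (n1 _ hv) (n1 _ h'.mZ) u4 e u5

lemma notBB (D : Dat G m S Z B C x y) (F : Forb G) (hm : 2 ≤ m) {t t' : V}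
    (ht : t ∉ S) (ht' : t' ∉ S) (htt : G.Adj t t') (h : IsB G Z B C t) (h' : IsB G Z B C t') :
    False := by
  rcases h with h | ⟨u, b0, h⟩ <;> rcases h' with h' | ⟨v, b1, h'⟩
  · obtain ⟨c, hc⟩ := card_pos.1 (show 0 < C.card by rw [D.cC]; omega)
    exact F.k5 htt (h.aZ x D.xZ) (h.aZ y D.yZ) (h.aC c hc) (h'.aZ x D.xZ) (h'.aZ y D.yZ)
      (h'.aC c hc) D.xy (D.ZC x D.xZ c hc) (D.ZC y D.yZ c hc)
  · exact (D.rerep h'.st h'.mB).notZZ F hm ht ht' htt (D.TB_TZ h'.st h) (D.WB_TZ h')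
  · exact (D.rerep h.st h.mB).notZZ F hm ht ht' htt (D.WB_TZ h) (D.TB_TZ h.st h')
  · have e : u = v := h.st.unique h'.st (by rw [D.cZ]; omega)
    subst e
    exact (D.rerep h.st h.mB).notZZ F hm ht ht' htt (D.WB_TZ h) (D.WB_TZ h')

/-- extension, first case. -/
lemma ext1 (D : Dat G m S Z B C x y) {tB tC tZ z0 : V}
    (nB : tB ∉ S) (nC : tC ∉ S) (nZ : tZ ∉ S) (aBC : G.Adj tB tC) (aBZ : G.Adj tB tZ)
    (aCZ : G.Adj tC tZ) (hB : TB G Z B C tB) (hC : TB G Z C B tC) (hZ : TZ G Z B C tZ z0)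
    (h0 : z0 = x ∨ z0 = y) :
    Dat G (m + 1) (insert tB (insert tC (insert tZ S))) (insert tZ Z) (insert tB B)
      (insert tC C) x y := by
  have e1 : tZ ≠ x := fun e => nZ (e ▸ D.ZS D.xZ)
  have e2 : tZ ≠ y := fun e => nZ (e ▸ D.ZS D.yZ)
  refine ⟨?_, ?_, ?_, ?_, mem_insert_of_mem D.xZ, mem_insert_of_mem D.yZ, D.xy, ?_, ?_, ?_, ?_,
    ?_, ?_, ?_⟩
  · rw [D.hS]; ext a; simp only [mem_union, mem_insert]; tauto
  · rw [card_insert_of_notMem (fun h => nZ (D.ZS h)), D.cZ]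
  · rw [card_insert_of_notMem (fun h => nB (D.BS h)), D.cB]
  · rw [card_insert_of_notMem (fun h => nC (D.CS h)), D.cC]
  · intro z hz b hb
    rcases mem_insert.1 hz with rfl | kz <;> rcases mem_insert.1 hb with rfl | kb
    · exact aBZ.symm
    · exact hZ.aB b kb
    · exact (hB.aZ z kz).symm
    · exact D.ZB z kz b kb
  · intro z hz b hb
    rcases mem_insert.1 hz with rfl | kz <;> rcases mem_insert.1 hb with rfl | kb
    · exact aCZ.symm
    · exact hZ.aC b kb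
    · exact (hC.aZ z kz).symm
    · exact D.ZC z kz b kb
  · intro z hz b hb
    rcases mem_insert.1 hz with rfl | kz <;> rcases mem_insert.1 hb with rfl | kb
    · exact aBC
    · exact hB.aC b kb
    · exact (hC.aC z kz).symm
    · exact D.BC z kz b kb
  · intro z hz b hb
    rcases mem_insert.1 hz with rfl | kz <;> rcases mem_insert.1 hb with rfl | kb
    · exact G.irrefl
    · exact hB.nB b kb
    · exact fun h => hB.nB z kz h.symm
    · exact D.iB z kz b kb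
  · intro z hz b hb
    rcases mem_insert.1 hz with rfl | kz <;> rcases mem_insert.1 hb with rfl | kb
    · exact G.irrefl
    · exact hC.nB b kb
    · exact fun h => hC.nB z kz h.symm
    · exact D.iC z kz b kb
  · intro z hz h1 h2
    rcases mem_insert.1 hz with rfl | hz
    · rw [hZ.aZ x D.xZ, hZ.aZ y D.yZ]
      have := D.xy.ne
      rcases h0 with rfl | rfl
      · left; exact ⟨rfl, fun e => this e.symm⟩
      · right; exact ⟨fun e => this e, rfl⟩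
    · exact D.st z hz h1 h2
  · intro z hz h1 h2 w hw h3 h4
    have key : ∀ w ∈ Z, w ≠ x → w ≠ y → ¬ G.Adj tZ w := by
      intro w hw h3 h4
      rw [hZ.aZ w hw]
      rcases h0 with rfl | rfl <;> assumption
    rcases mem_insert.1 hz with rfl | kz <;> rcases mem_insert.1 hw with rfl | kw
    · exact G.irrefl
    · exact key w kw h3 h4
    · exact fun h => key z kz h1 h2 h.symm
    · exact D.iZ z kz h1 h2 w kw h3 h4

/-- extension, leaf of `x`. -/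
lemma ext2 (D : Dat G m S Z B C x y) (F : Forb G) (hm : 2 ≤ m) {tB tC tZ z0 : V}
    (nB : tB ∉ S) (nC : tC ∉ S) (nZ : tZ ∉ S) (aBC : G.Adj tB tC) (aBZ : G.Adj tB tZ)
    (aCZ : G.Adj tC tZ) (hB : TB G Z B C tB) (hC : TB G Z C B tC) (hZ : TZ G Z B C tZ z0)
    (h1 : z0 ≠ x) (h2 : z0 ≠ y) (h0 : G.Adj z0 x) :
    KM G (m + 1) (insert tB (insert tC (insert tZ S))) := by
  obtain ⟨b, hb, b', hb', hbb⟩ := one_lt_card.1 (show 1 < B.card by rw [D.cB]; omega)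
  obtain ⟨c, hc, c', hc', hcc⟩ := one_lt_card.1 (show 1 < C.card by rw [D.cC]; omega)
  have H := D.q4 hb hb' hc hc' hbb hcc
  have jt : Jn G b b' c c' tZ := ⟨hZ.aB b hb, hZ.aB b' hb', hZ.aC c hc, hZ.aC c' hc'⟩
  have jz : ∀ z ∈ Z, Jn G b b' c c' z := fun z hz => D.jnZ hz hb hb' hc hc'
  have n1 : ∀ z ∈ Z, tZ ≠ z := fun z hz e => nZ (e ▸ D.ZS hz)
  have a0 : G.Adj tZ z0 := (hZ.aZ z0 hZ.mZ).2 rfl
  by_cases hw : ∃ w ∈ Z, w ≠ x ∧ w ≠ y ∧ G.Adj w y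
  · exfalso
    obtain ⟨w, hwZ, w1, w2, w3⟩ := hw
    have e : z0 ≠ w := by
      intro e
      rcases D.st w hwZ w1 w2 with h | h
      · exact h.2 w3
      · exact h.1 (e ▸ h0)
    exact F.p5 H jt (jz z0 hZ.mZ) (jz x D.xZ) (jz y D.yZ) (jz w hwZ) a0 h0 D.xy w3.symm
      (n1 _ D.xZ) (n1 _ D.yZ) (n1 _ hwZ) h2 e w1.symm
  · push Not at hw
    have hall : ∀ z ∈ Z, z ≠ x → G.Adj z x := by
      intro z hz hzx
      by_cases e : z = y
      · rw [e]; exact D.xy.symm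
      · rcases D.st z hz hzx e with h | h
        · exact h.1
        · exact absurd h.2 (hw z hz hzx e)
    have hind : ∀ z ∈ Z, ∀ w ∈ Z, z ≠ x → w ≠ x → ¬ G.Adj z w := by
      intro z hz w hw' hzx hwx
      by_cases e : z = y
      · by_cases e' : w = y
        · rw [e, e']; exact G.irrefl
        · rw [e]; exact fun h => hw w hw' hwx e' h.symm
      · by_cases e' : w = y
        · rw [e']; exact hw z hz hzx e
        · exact D.iZ z hz hzx e w hw' hwx e'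
    have D' : Dat G m S Z B C x z0 :=
      { D with
        yZ := hZ.mZ
        xy := h0.symm
        st := fun z hz h1 h2 => Or.inl ⟨hall z hz h1, hind z hz z0 hZ.mZ h1 (by assumption)⟩
        iZ := fun z hz h1 _ w hw h3 _ => hind z hz w hw h1 h3 }
    exact ⟨_, _, _, _, _, D'.ext1 nB nC nZ aBC aBZ aCZ hB hC hZ (Or.inr rfl)⟩

lemma ext3 (D : Dat G m S Z B C x y) (F : Forb G) (hm : 2 ≤ m) {tB tC tZ z0 : V}
    (nB : tB ∉ S) (nC : tC ∉ S) (nZ : tZ ∉ S) (aBC : G.Adj tB tC) (aBZ : G.Adj tB tZ)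
    (aCZ : G.Adj tC tZ) (hB : TB G Z B C tB) (hC : TB G Z C B tC) (hZ : TZ G Z B C tZ z0) :
    KM G (m + 1) (insert tB (insert tC (insert tZ S))) := by
  by_cases e1 : z0 = x
  · exact ⟨_, _, _, _, _, D.ext1 nB nC nZ aBC aBZ aCZ hB hC hZ (Or.inl e1)⟩
  by_cases e2 : z0 = y
  · exact ⟨_, _, _, _, _, D.ext1 nB nC nZ aBC aBZ aCZ hB hC hZ (Or.inr e2)⟩
  rcases D.st z0 hZ.mZ e1 e2 with h | h
  · exact D.ext2 F hm nB nC nZ aBC aBZ aCZ hB hC hZ e1 e2 h.1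
  · exact D.swapxy.ext2 F hm nB nC nZ aBC aBZ aCZ hB hC hZ e2 e1 h.2

/-- weird B, type C, type Z. -/
lemma ext4 (D : Dat G m S Z B C x y) (F : Forb G) (hm : 2 ≤ m) {tB tC tZ z0 u b0 : V}
    (nB : tB ∉ S) (nC : tC ∉ S) (nZ : tZ ∉ S) (aBC : G.Adj tB tC) (aBZ : G.Adj tB tZ)
    (aCZ : G.Adj tC tZ) (hB : WB G Z B C tB u b0) (hC : TB G Z C B tC)
    (hZ : TZ G Z B C tZ z0) :
    KM G (m + 1) (insert tB (insert tC (insert tZ S))) := by
  obtain ⟨c, hc⟩ := card_pos.1 (show 0 < C.card by rw [D.cC]; omega)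
  by_cases e : z0 = u
  · subst e
    have hZ' : TB G (insert z0 B) (Z.erase z0) C tZ := by
      refine ⟨?_, ?_, hZ.aC⟩
      · intro z hz
        rcases mem_insert.1 hz with rfl | hz
        · exact (hZ.aZ z hZ.mZ).2 rfl
        · exact hZ.aB z hz
      · intro b hb h
        exact ne_of_mem_erase hb ((hZ.aZ b (mem_of_mem_erase hb)).1 h)
    have hC' : TB G (insert z0 B) C (Z.erase z0) tC := by
      refine ⟨?_, hC.nB, fun b hb => hC.aZ b (mem_of_mem_erase hb)⟩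
      intro z hz
      rcases mem_insert.1 hz with rfl | hz
      · exact hC.aZ z hZ.mZ
      · exact hC.aC z hz
    have := (D.rerep hB.st hB.mB).ext3 F hm nZ nC nB aCZ.symm aBZ.symm aBC.symm hZ' hC'
      (D.WB_TZ hB)
    have e2 : insert tB (insert tC (insert tZ S)) = insert tZ (insert tC (insert tB S)) := by
      ext a; simp only [mem_insert]; tauto
    rw [e2]; exact this
  · exfalso
    have a1 : G.Adj tB z0 := hB.aZ z0 hZ.mZ e
    have a2 : G.Adj tB b0 := (hB.aB b0 hB.mB).2 rfl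
    exact F.k5 aBZ a1 a2 (hB.aC c hc) ((hZ.aZ z0 hZ.mZ).2 rfl) (hZ.aB b0 hB.mB)
      (hZ.aC c hc) (D.ZB z0 hZ.mZ b0 hB.mB) (D.ZC z0 hZ.mZ c hc) (D.BC b0 hB.mB c hc)

lemma ext5 (D : Dat G m S Z B C x y) (F : Forb G) (hm : 2 ≤ m) {tB tC tZ z0 : V}
    (nB : tB ∉ S) (nC : tC ∉ S) (nZ : tZ ∉ S) (aBC : G.Adj tB tC) (aBZ : G.Adj tB tZ)
    (aCZ : G.Adj tC tZ) (hB : IsB G Z B C tB) (hC : IsB G Z C B tC) (hZ : TZ G Z B C tZ z0) :
    KM G (m + 1) (insert tB (insert tC (insert tZ S))) := by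
  rcases hB with hB | ⟨u, b0, hB⟩ <;> rcases hC with hC | ⟨v, c0, hC⟩
  · exact D.ext3 F hm nB nC nZ aBC aBZ aCZ hB hC hZ
  · have := D.swapBC.ext4 F hm nC nB nZ aBC.symm aCZ aBZ hC hB hZ.swap
    have e2 : insert tB (insert tC (insert tZ S)) = insert tC (insert tB (insert tZ S)) := by
      ext a; simp only [mem_insert]; tauto
    rw [e2]; exact this
  · exact D.ext4 F hm nB nC nZ aBC aBZ aCZ hB hC hZ
  · exfalso
    have e : u = v := hB.st.unique hC.st (by rw [D.cZ]; omega)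
    subst e
    obtain ⟨z, hz⟩ := card_pos.1 (show 0 < (Z.erase u).card by
      rw [card_erase_of_mem hB.st.uZ, D.cZ]; omega)
    have hz1 := mem_of_mem_erase hz
    have hz2 := ne_of_mem_erase hz
    exact F.k5 aBC ((hB.aB b0 hB.mB).2 rfl) (hB.aC c0 hC.mB) (hB.aZ z hz1 hz2)
      (hC.aC b0 hB.mB) ((hC.aB c0 hC.mB).2 rfl) (hC.aZ z hz1 hz2)
      (D.BC b0 hB.mB c0 hC.mB) (D.ZB z hz1 b0 hB.mB).symm (D.ZC z hz1 c0 hC.mB).symm

/-- classification of a new vertex. -/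
lemma types (D : Dat G m S Z B C x y) (F : Forb G) (hm : 2 ≤ m) {t : V} (ht : t ∉ S)
    (hd : dg G S t = 2 * m + 1) :
    IsB G Z B C t ∨ IsB G Z C B t ∨ ∃ z0, TZ G Z B C t z0 := by
  have hs := D.dg_split t
  have lZ : dg G Z t ≤ m + 1 := D.cZ ▸ dg_le Z t
  have lB : dg G B t ≤ m := D.cB ▸ dg_le B t
  have lC : dg G C t ≤ m := D.cC ▸ dg_le C t
  by_cases b0 : dg G B t = 0
  · left; left
    exact ⟨full_of_dg (by rw [D.cZ]; omega), none_of_dg b0, full_of_dg (by rw [D.cC]; omega)⟩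
  by_cases c0 : dg G C t = 0
  · right; left; left
    exact ⟨full_of_dg (by rw [D.cZ]; omega), none_of_dg c0, full_of_dg (by rw [D.cB]; omega)⟩
  obtain ⟨b, hb, tb⟩ := exists_of_dg_pos (show 1 ≤ dg G B t by omega)
  obtain ⟨c, hc, tc⟩ := exists_of_dg_pos (show 1 ≤ dg G C t by omega)
  have hind : ∀ z ∈ Z, ∀ w ∈ Z, G.Adj t z → G.Adj t w → ¬ G.Adj z w := by
    intro z hz w hw h1 h2 h3
    exact F.k5 h1 h2 tb tc h3 (D.ZB z hz b hb) (D.ZC z hz c hc) (D.ZB w hw b hb)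
      (D.ZC w hw c hc) (D.BC b hb c hc)
  have hZm : dg G Z t ≤ m := by
    by_contra hc
    have hf := full_of_dg (G := G) (S := Z) (v := t) (by rw [D.cZ]; omega)
    exact hind x D.xZ y D.yZ (hf x D.xZ) (hf y D.yZ) D.xy
  have star_of : ∀ u ∈ Z, (∀ w ∈ Z, G.Adj t w ↔ w ≠ u) → Star G Z u := by
    intro u hu hw
    have hi : ∀ z ∈ Z, ∀ w ∈ Z, z ≠ u → w ≠ u → ¬ G.Adj z w := fun z hz w hw' h1 h2 =>
      hind z hz w hw' ((hw z hz).2 h1) ((hw w hw').2 h2)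
    refine ⟨hu, ?_, hi⟩
    have hux : u = x ∨ u = y := by
      by_contra hc
      push Not at hc
      exact hi x D.xZ y D.yZ hc.1.symm hc.2.symm D.xy
    intro z hz hzu
    rcases hux with rfl | rfl
    · by_cases e : z = y
      · rw [e]; exact D.xy
      · rcases D.st z hz hzu e with h | h
        · exact h.1.symm
        · exact absurd h.2 (hi z hz y D.yZ hzu D.xy.ne.symm)
    · by_cases e : z = x
      · rw [e]; exact D.xy.symm
      · rcases D.st z hz e hzu with h | h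
        · exact absurd h.1 (hi z hz x D.xZ hzu D.xy.ne)
        · exact h.2.symm
  by_cases z1 : dg G Z t = 1
  · right; right
    obtain ⟨z0, hz0, hz⟩ := unique_of_dg_one z1
    exact ⟨z0, hz0, hz, full_of_dg (by rw [D.cB]; omega), full_of_dg (by rw [D.cC]; omega)⟩
  by_cases b1 : dg G B t = 1
  · left; right
    obtain ⟨u, hu, hw⟩ := miss_of_dg (G := G) (S := Z) (v := t) (by rw [D.cZ]; omega)
    obtain ⟨b1', hb1, hbb⟩ := unique_of_dg_one b1
    exact ⟨u, b1', star_of u hu hw, fun h => (hw u hu).1 h rfl, fun z hz h => (hw z hz).2 h,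
      hb1, hbb, full_of_dg (by rw [D.cC]; omega)⟩
  by_cases c1 : dg G C t = 1
  · right; left; right
    obtain ⟨u, hu, hw⟩ := miss_of_dg (G := G) (S := Z) (v := t) (by rw [D.cZ]; omega)
    obtain ⟨b1', hb1, hbb⟩ := unique_of_dg_one c1
    exact ⟨u, b1', star_of u hu hw, fun h => (hw u hu).1 h rfl, fun z hz h => (hw z hz).2 h,
      hb1, hbb, full_of_dg (by rw [D.cB]; omega)⟩
  exfalso
  obtain ⟨p, hp, p', hp', hpp, tp, tp'⟩ := exists_of_two_le_dg (show 2 ≤ dg G B t by omega)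
  obtain ⟨q, hq, q', hq', hqq, tq, tq'⟩ := exists_of_two_le_dg (show 2 ≤ dg G C t by omega)
  obtain ⟨z, hz, w, hw, hzw, tz, tw⟩ := exists_of_two_le_dg (show 2 ≤ dg G Z t by omega)
  have H := D.q4 hp hp' hq hq' hpp hqq
  have jt : Jn G p p' q q' t := ⟨tp, tp', tq, tq'⟩
  have jz : ∀ z ∈ Z, Jn G p p' q q' z := fun z hz => D.jnZ hz hp hp' hq hq'
  have n1 : ∀ z ∈ Z, t ≠ z := fun z hz e => ht (e ▸ D.ZS hz)
  rcases D.dist hz hw hzw (hind z hz w hw tz tw) with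
    ⟨u, hu, u1, u2⟩ | ⟨u, hu, v, hv, u1, u2, u3, u4, u5⟩
  · exact F.c4 H jt (jz z hz) (jz u hu) (jz w hw) tz u1 u2 tw.symm (n1 _ hu) hzw
  · exact F.p5 H jt (jz z hz) (jz u hu) (jz v hv) (jz w hw) tz u1 u2 u3 (n1 _ hu)
      (n1 _ hv) (n1 _ hw) u4 hzw u5

lemma ext6 (D : Dat G m S Z B C x y) (F : Forb G) (hm : 2 ≤ m) {t1 t2 t3 : V}
    (n1 : t1 ∉ S) (n2 : t2 ∉ S) (n3 : t3 ∉ S) (a12 : G.Adj t1 t2) (a13 : G.Adj t1 t3)
    (a23 : G.Adj t2 t3) (d1 : dg G S t1 = 2 * m + 1) (d2 : dg G S t2 = 2 * m + 1)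
    (d3 : dg G S t3 = 2 * m + 1) :
    KM G (m + 1) (insert t1 (insert t2 (insert t3 S))) := by
  have perm : ∀ a b c a' b' c' : V, (∀ v, (v = a ∨ v = b ∨ v = c) ↔ (v = a' ∨ v = b' ∨ v = c')) →
      KM G (m + 1) (insert a' (insert b' (insert c' S))) →
      KM G (m + 1) (insert a (insert b (insert c S))) := by
    intro a b c a' b' c' h hk
    have e2 : insert a (insert b (insert c S)) = insert a' (insert b' (insert c' S)) := by
      ext v; simp only [mem_insert]; have := h v; tauto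
    rw [e2]; exact hk
  have sw := D.swapBC
  rcases D.types F hm n1 d1 with h1 | h1 | ⟨z1, h1⟩ <;>
  rcases D.types F hm n2 d2 with h2 | h2 | ⟨z2, h2⟩
  · exact (D.notBB F hm n1 n2 a12 h1 h2).elim
  · rcases D.types F hm n3 d3 with h3 | h3 | ⟨z3, h3⟩
    · exact (D.notBB F hm n1 n3 a13 h1 h3).elim
    · exact (sw.notBB F hm n2 n3 a23 h2 h3).elim
    · exact D.ext5 F hm n1 n2 n3 a12 a13 a23 h1 h2 h3
  · rcases D.types F hm n3 d3 with h3 | h3 | ⟨z3, h3⟩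
    · exact (D.notBB F hm n1 n3 a13 h1 h3).elim
    · exact perm _ _ _ t1 t3 t2 (by intro v; tauto)
        (D.ext5 F hm n1 n3 n2 a13 a12 a23.symm h1 h3 h2)
    · exact (D.notZZ F hm n2 n3 a23 h2 h3).elim
  · rcases D.types F hm n3 d3 with h3 | h3 | ⟨z3, h3⟩
    · exact (D.notBB F hm n2 n3 a23 h2 h3).elim
    · exact (sw.notBB F hm n1 n3 a13 h1 h3).elim
    · exact perm _ _ _ t2 t1 t3 (by intro v; tauto)
        (D.ext5 F hm n2 n1 n3 a12.symm a23 a13 h2 h1 h3)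
  · exact (sw.notBB F hm n1 n2 a12 h1 h2).elim
  · rcases D.types F hm n3 d3 with h3 | h3 | ⟨z3, h3⟩
    · exact perm _ _ _ t3 t1 t2 (by intro v; tauto)
        (D.ext5 F hm n3 n1 n2 a13.symm a23.symm a12 h3 h1 h2)
    · exact (sw.notBB F hm n1 n3 a13 h1 h3).elim
    · exact (D.notZZ F hm n2 n3 a23 h2 h3).elim
  · rcases D.types F hm n3 d3 with h3 | h3 | ⟨z3, h3⟩
    · exact (D.notBB F hm n2 n3 a23 h2 h3).elim
    · exact perm _ _ _ t2 t3 t1 (by intro v; tauto)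
        (D.ext5 F hm n2 n3 n1 a23 a12.symm a13.symm h2 h3 h1)
    · exact (D.notZZ F hm n1 n3 a13 h1 h3).elim
  · rcases D.types F hm n3 d3 with h3 | h3 | ⟨z3, h3⟩
    · exact perm _ _ _ t3 t2 t1 (by intro v; tauto)
        (D.ext5 F hm n3 n2 n1 a23.symm a13.symm a12.symm h3 h2 h1)
    · exact (sw.notBB F hm n2 n3 a23 h2 h3).elim
    · exact (D.notZZ F hm n1 n3 a13 h1 h3).elim
  · exact (D.notZZ F hm n1 n2 a12 h1 h2).elim

end Dat

end Pool.Agent.H4.G61
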