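import Pool.Agent.H4.G61.Pat

/-! Degrees inside finsets. -/

namespace Pool.Agent.H4.G61

open H20 Finset

variable {V : Type*} [DecidableEq V] (G : SimpleGraph V) [DecidableRel G.Adj]

/-- degree of `v` into `S`. -/
def dg (S : Finset V) (v : V) : ℕ := (S.filter (G.Adj v)).card

variable {G}

lemma DS_eq (S : Finset V) : DS G S = ∑ v ∈ S, dg G S v := rfl

lemma dg_le (S : Finset V) (v : V) : dg G S v ≤ S.card := card_filter_le _ _

lemma dg_insert {S : Finset V} {v : V} (hv : v ∉ S) (u : V) :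
    dg G (insert v S) u = dg G S u + if G.Adj u v then 1 else 0 := by
  unfold dg
  rw [filter_insert]
  split_ifs with h
  · rw [card_insert_of_notMem (by simp [hv])]
  · simp

lemma dg_union {S T : Finset V} (h : Disjoint S T) (u : V) :
    dg G (S ∪ T) u = dg G S u + dg G T u := by
  unfold dg
  rw [filter_union, card_union_of_disjoint]
  exact disjoint_filter_filter h

lemma dg_full {S : Finset V} {v : V} (h : ∀ u ∈ S, G.Adj v u) : dg G S v = S.card := by
  unfold dg; rw [filter_true_of_mem h]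

lemma dg_none {S : Finset V} {v : V} (h : ∀ u ∈ S, ¬ G.Adj v u) : dg G S v = 0 := by
  unfold dg; rw [filter_false_of_mem h]; simp

lemma full_of_dg {S : Finset V} {v : V} (h : S.card ≤ dg G S v) : ∀ u ∈ S, G.Adj v u := by
  have : S.filter (G.Adj v) = S := eq_of_subset_of_card_le (filter_subset _ _) h
  intro u hu
  rw [← this] at hu
  exact (mem_filter.1 hu).2

lemma none_of_dg {S : Finset V} {v : V} (h : dg G S v = 0) : ∀ u ∈ S, ¬ G.Adj v u := by
  intro u hu ha
  have := card_eq_zero.1 h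
  have hm : u ∈ S.filter (G.Adj v) := by simp [hu, ha]
  rw [this] at hm
  simp at hm

lemma exists_of_dg_pos {S : Finset V} {v : V} (h : 1 ≤ dg G S v) : ∃ u ∈ S, G.Adj v u := by
  obtain ⟨u, hu⟩ := card_pos.1 (Nat.lt_of_lt_of_le Nat.zero_lt_one h)
  exact ⟨u, (mem_filter.1 hu).1, (mem_filter.1 hu).2⟩

lemma exists_of_two_le_dg {S : Finset V} {v : V} (h : 2 ≤ dg G S v) :
    ∃ u ∈ S, ∃ w ∈ S, u ≠ w ∧ G.Adj v u ∧ G.Adj v w := by
  obtain ⟨u, hu, w, hw, huw⟩ := one_lt_card.1 (Nat.lt_of_lt_of_le Nat.one_lt_two h)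
  exact ⟨u, (mem_filter.1 hu).1, w, (mem_filter.1 hw).1, huw, (mem_filter.1 hu).2,
    (mem_filter.1 hw).2⟩

lemma unique_of_dg_one {S : Finset V} {v : V} (h : dg G S v = 1) :
    ∃ u ∈ S, ∀ w ∈ S, G.Adj v w ↔ w = u := by
  obtain ⟨u, hu⟩ := card_eq_one.1 h
  have hm : u ∈ S.filter (G.Adj v) := by rw [hu]; simp
  refine ⟨u, (mem_filter.1 hm).1, fun w hw => ⟨fun ha => ?_, fun e => ?_⟩⟩
  · have : w ∈ S.filter (G.Adj v) := by simp [hw, ha]
    rw [hu] at this
    simpa using this
  · rw [e]; exact (mem_filter.1 hm).2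

lemma miss_of_dg {S : Finset V} {v : V} (h : dg G S v + 1 = S.card) :
    ∃ u ∈ S, ∀ w ∈ S, G.Adj v w ↔ w ≠ u := by
  have h2 := card_filter_add_card_filter_not (s := S) (G.Adj v)
  have h3 : (S.filter (fun a => ¬ G.Adj v a)).card = 1 := by
    unfold dg at h; omega
  obtain ⟨u, hu⟩ := card_eq_one.1 h3
  have hm : u ∈ S.filter (fun a => ¬ G.Adj v a) := by rw [hu]; simp
  refine ⟨u, (mem_filter.1 hm).1, fun w hw => ⟨fun ha e => ?_, fun e => ?_⟩⟩
  · rw [e] at ha; exact (mem_filter.1 hm).2 ha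
  · by_contra hc
    have : w ∈ S.filter (fun a => ¬ G.Adj v a) := by simp [hw, hc]
    rw [hu] at this
    exact e (by simpa using this)

lemma dg_self_insert {S : Finset V} {v : V} (hv : v ∉ S) : dg G (insert v S) v = dg G S v := by
  rw [dg_insert hv]; simp

lemma dg_erase {S : Finset V} {v : V} (hv : v ∈ S) (u : V) :
    dg G S u = dg G (S.erase v) u + if G.Adj u v then 1 else 0 := by
  conv_lhs => rw [← insert_erase hv]
  exact dg_insert (notMem_erase v S) u

lemma dg_erase_self {S : Finset V} {v : V} (hv : v ∈ S) :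
    dg G (S.erase v) v = dg G S v := by
  rw [dg_erase hv v]; simp

lemma DS_insert {S : Finset V} {v : V} (hv : v ∉ S) :
    DS G (insert v S) = DS G S + 2 * dg G S v := by
  rw [DS_eq, DS_eq, sum_insert hv, dg_self_insert hv]
  have : ∑ x ∈ S, dg G (insert v S) x = ∑ x ∈ S, dg G S x + dg G S v := by
    rw [sum_congr rfl (fun x _ => dg_insert hv x), sum_add_distrib]
    congr 1
    rw [← card_filter]
    unfold dg
    congr 1
    ext x
    simp only [mem_filter]
    rw [G.adj_comm]
  rw [this]; ring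

lemma DS_erase {S : Finset V} {v : V} (hv : v ∈ S) :
    DS G (S.erase v) + 2 * dg G S v = DS G S := by
  conv_rhs => rw [← insert_erase hv]
  rw [DS_insert (notMem_erase v S), dg_erase_self hv]

lemma sum_DS_erase (S : Finset V) :
    ∑ v ∈ S, DS G (S.erase v) + 2 * DS G S = S.card * DS G S := by
  have h : ∑ v ∈ S, (DS G (S.erase v) + 2 * dg G S v) = ∑ v ∈ S, DS G S :=
    sum_congr rfl (fun v hv => DS_erase hv)
  rw [sum_add_distrib, ← mul_sum, ← DS_eq, sum_const, smul_eq_mul] at h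
  exact h

lemma DS_even (S : Finset V) : Even (DS G S) := by
  induction S using Finset.induction_on with
  | empty => simp [DS_eq]
  | insert v S hv ih => rw [DS_insert hv]; exact ih.add (even_two_mul _)

lemma dg_add_le {S : Finset V} {v : V} (hv : v ∈ S) : dg G S v + 1 ≤ S.card := by
  have h := dg_erase_self (G := G) hv
  have h2 := dg_le (G := G) (S.erase v) v
  rw [card_erase_of_mem hv] at h2
  have : 1 ≤ S.card := card_pos.2 ⟨v, hv⟩
  omega

end Pool.Agent.H4.G61
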