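import Pool.Agent.H4.G61.Dat

/-! Theorem A: the induction. -/

namespace Pool.Agent.H4.G61

open H20 Finset

variable {V : Type*} [DecidableEq V] {G : SimpleGraph V} [DecidableRel G.Adj]

lemma dat1 {a s1 s2 s3 : V} (h01 : G.Adj a s1) (h02 : G.Adj a s2) (h03 : G.Adj a s3)
    (h12 : G.Adj s1 s2) (h13 : G.Adj s1 s3) (h23 : G.Adj s2 s3) :
    Dat G 1 {a, s1, s2, s3} {a, s1} {s2} {s3} a s1 where
  hS := by ext v; simp only [mem_union, mem_insert, mem_singleton]; tauto
  cZ := by rw [card_insert_of_notMem (by simpa using h01.ne)]; simp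
  cB := by simp
  cC := by simp
  xZ := by simp
  yZ := by simp
  xy := h01
  ZB := by
    intro z hz b hb
    simp only [mem_insert, mem_singleton] at hz hb
    subst hb
    rcases hz with rfl | rfl <;> assumption
  ZC := by
    intro z hz b hb
    simp only [mem_insert, mem_singleton] at hz hb
    subst hb
    rcases hz with rfl | rfl <;> assumption
  BC := by
    intro z hz b hb
    simp only [mem_singleton] at hz hb
    subst hb; subst hz; exact h23
  iB := by
    intro z hz b hb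
    simp only [mem_singleton] at hz hb
    subst hb; subst hz; exact G.irrefl
  iC := by
    intro z hz b hb
    simp only [mem_singleton] at hz hb
    subst hb; subst hz; exact G.irrefl
  st := by
    intro z hz h1 h2
    simp only [mem_insert, mem_singleton] at hz
    tauto
  iZ := by
    intro z hz h1 h2
    simp only [mem_insert, mem_singleton] at hz
    tauto

lemma clique_of {S : Finset V} (hc : S.card = 4) (hD : DS G S = 12) :
    ∀ u ∈ S, ∀ v ∈ S, u ≠ v → G.Adj u v := by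
  have h1 : ∀ v ∈ S, dg G S v ≤ 3 := fun v hv => by have := dg_add_le (G := G) hv; omega
  have h2 : ∑ v ∈ S, dg G S v = ∑ v ∈ S, 3 := by
    rw [← DS_eq, hD, sum_const, hc]; rfl
  have h3 := (sum_eq_sum_iff_of_le h1).1 h2
  intro u hu v hv huv
  have h4 := h3 u hu
  rw [← dg_erase_self hu] at h4
  exact full_of_dg (G := G) (S := S.erase u) (v := u)
    (by rw [card_erase_of_mem hu, hc]; omega) v (mem_erase.2 ⟨huv.symm, hv⟩)

lemma km1 {S : Finset V} (hc : S.card = 4) (hD : DS G S = 12) : KM G 1 S := by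
  have hcl := clique_of hc hD
  obtain ⟨a, ha⟩ := card_pos.1 (show 0 < S.card by omega)
  have h3 : (S.erase a).card = 3 := by rw [card_erase_of_mem ha, hc]
  obtain ⟨s1, s2, s3, e12, e13, e23, he⟩ := card_eq_three.1 h3
  have m1 : s1 ∈ S.erase a := by rw [he]; simp
  have m2 : s2 ∈ S.erase a := by rw [he]; simp
  have m3 : s3 ∈ S.erase a := by rw [he]; simp
  have hSe : S = {a, s1, s2, s3} := by
    rw [← insert_erase ha, he]
  rw [hSe]
  exact ⟨_, _, _, _, _, dat1
    (hcl _ ha _ (mem_of_mem_erase m1) (ne_of_mem_erase m1).symm)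
    (hcl _ ha _ (mem_of_mem_erase m2) (ne_of_mem_erase m2).symm)
    (hcl _ ha _ (mem_of_mem_erase m3) (ne_of_mem_erase m3).symm)
    (hcl _ (mem_of_mem_erase m1) _ (mem_of_mem_erase m2) e12)
    (hcl _ (mem_of_mem_erase m1) _ (mem_of_mem_erase m3) e13)
    (hcl _ (mem_of_mem_erase m2) _ (mem_of_mem_erase m3) e23)⟩

lemma ext_one (F : Forb G) {S : Finset V} (hc : S.card = 4) (hD : DS G S = 12) {t1 t2 t3 : V}
    (n1 : t1 ∉ S) (n2 : t2 ∉ S) (n3 : t3 ∉ S) (a12 : G.Adj t1 t2) (a13 : G.Adj t1 t3)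
    (a23 : G.Adj t2 t3) (d1 : dg G S t1 = 3) (d2 : dg G S t2 = 3) (d3 : dg G S t3 = 3) :
    KM G 2 (insert t1 (insert t2 (insert t3 S))) := by
  have hcl := clique_of hc hD
  obtain ⟨s1, m1, h1⟩ := miss_of_dg (G := G) (S := S) (v := t1) (by omega)
  obtain ⟨s2, m2, h2⟩ := miss_of_dg (G := G) (S := S) (v := t2) (by omega)
  obtain ⟨s3, m3, h3⟩ := miss_of_dg (G := G) (S := S) (v := t3) (by omega)
  have key : ∀ t t' s : V, s ∈ S → G.Adj t t' → (∀ w ∈ S, G.Adj t w ↔ w ≠ s) →
      (∀ w ∈ S, G.Adj t' w ↔ w ≠ s) → False := by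
    intro t t' s hs ha hk hk'
    have h3 : (S.erase s).card = 3 := by rw [card_erase_of_mem hs, hc]
    obtain ⟨p, q, r, e12, e13, e23, he⟩ := card_eq_three.1 h3
    have mp : p ∈ S.erase s := by rw [he]; simp
    have mq : q ∈ S.erase s := by rw [he]; simp
    have mr : r ∈ S.erase s := by rw [he]; simp
    rw [mem_erase] at mp mq mr
    exact F.k5 ha ((hk p mp.2).2 mp.1) ((hk q mq.2).2 mq.1) ((hk r mr.2).2 mr.1)
      ((hk' p mp.2).2 mp.1) ((hk' q mq.2).2 mq.1) ((hk' r mr.2).2 mr.1)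
      (hcl p mp.2 q mq.2 e12) (hcl p mp.2 r mr.2 e13) (hcl q mq.2 r mr.2 e23)
  have e12 : s1 ≠ s2 := by rintro rfl; exact key t1 t2 s1 m1 a12 h1 h2
  have e13 : s1 ≠ s3 := by rintro rfl; exact key t1 t3 s1 m1 a13 h1 h3
  have e23 : s2 ≠ s3 := by rintro rfl; exact key t2 t3 s2 m2 a23 h2 h3
  have k1 : s2 ∈ S.erase s1 := mem_erase.2 ⟨e12.symm, m2⟩
  have k2 : s3 ∈ (S.erase s1).erase s2 := mem_erase.2 ⟨e23.symm, mem_erase.2 ⟨e13.symm, m3⟩⟩
  have hcard : (((S.erase s1).erase s2).erase s3).card = 1 := by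
    rw [card_erase_of_mem k2, card_erase_of_mem k1, card_erase_of_mem m1, hc]
  obtain ⟨a, ha⟩ := card_eq_one.1 hcard
  have ma : a ∈ ((S.erase s1).erase s2).erase s3 := by rw [ha]; simp
  have hSe : S = {a, s1, s2, s3} := by
    rw [← insert_erase m1, ← insert_erase k1, ← insert_erase k2, ha]
    ext v; simp only [mem_insert, mem_singleton]; tauto
  simp only [mem_erase] at ma
  obtain ⟨a3, a2, a1, aS⟩ := ma
  have D : Dat G 1 S {a, s1} {s2} {s3} a s1 := by
    rw [hSe]
    exact dat1 (hcl _ aS _ m1 a1) (hcl _ aS _ m2 a2) (hcl _ aS _ m3 a3) (hcl _ m1 _ m2 e12)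
      (hcl _ m1 _ m3 e13) (hcl _ m2 _ m3 e23)
  have hZ : TZ G {a, s1} {s2} {s3} t1 a := by
    refine ⟨by simp, ?_, ?_, ?_⟩
    · intro z hz
      rw [h1 z (D.ZS hz)]
      simp only [mem_insert, mem_singleton] at hz
      rcases hz with rfl | rfl
      · simp [a1]
      · simp [a1.symm]
    · intro z hz; rw [h1 z (D.BS hz)]; rw [mem_singleton] at hz; rw [hz]; exact e12.symm
    · intro z hz; rw [h1 z (D.CS hz)]; rw [mem_singleton] at hz; rw [hz]; exact e13.symm
  have hB : TB G {a, s1} {s2} {s3} t2 := by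
    refine ⟨?_, ?_, ?_⟩
    · intro z hz
      rw [h2 z (D.ZS hz)]
      simp only [mem_insert, mem_singleton] at hz
      rcases hz with rfl | rfl
      · exact a2
      · exact e12
    · intro z hz; rw [h2 z (D.BS hz)]; rw [mem_singleton] at hz; rw [hz]; simp
    · intro z hz; rw [h2 z (D.CS hz)]; rw [mem_singleton] at hz; rw [hz]; exact e23.symm
  have hC : TB G {a, s1} {s3} {s2} t3 := by
    refine ⟨?_, ?_, ?_⟩
    · intro z hz
      rw [h3 z (D.ZS hz)]
      simp only [mem_insert, mem_singleton] at hz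
      rcases hz with rfl | rfl
      · exact a3
      · exact e13
    · intro z hz; rw [h3 z (D.CS hz)]; rw [mem_singleton] at hz; rw [hz]; simp
    · intro z hz; rw [h3 z (D.BS hz)]; rw [mem_singleton] at hz; rw [hz]; exact e23
  have := D.ext1 n2 n3 n1 a23 a12.symm a13.symm hB hC hZ (Or.inl rfl)
  have e2 : insert t1 (insert t2 (insert t3 S)) = insert t2 (insert t3 (insert t1 S)) := by
    ext v; simp only [mem_insert]; tauto
  rw [e2]
  exact ⟨_, _, _, _, _, this⟩

/-- The statement for `|S| = 3m+1`. -/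
def PA (G : SimpleGraph V) [DecidableRel G.Adj] (m : ℕ) : Prop :=
  ∀ S : Finset V, S.card = 3 * m + 1 → DS G S ≤ 6 * m * (m + 1) ∧
    (1 ≤ m → DS G S = 6 * m * (m + 1) → KM G m S)

/-- A vertex joined to an extremal configuration, all degrees `2m+2`. -/
lemma noReg (F : Forb G) {m : ℕ} (hm : 1 ≤ m) {S Z B C : Finset V} {x y v : V}
    (D : Dat G m S Z B C x y) (hv : v ∉ S)
    (hd : ∀ u ∈ S, dg G S u + (if G.Adj u v then 1 else 0) = 2 * m + 2) : False := by
  have hB : ∀ b ∈ B, G.Adj v b := by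
    intro b hb
    have h1 := hd b (D.BS hb)
    have h2 := D.dg_split b
    have h3 : dg G Z b ≤ m + 1 := D.cZ ▸ dg_le Z b
    have h4 : dg G B b = 0 := dg_none (D.iB b hb)
    have h5 : dg G C b ≤ m := D.cC ▸ dg_le C b
    split_ifs at h1 with h
    · exact h.symm
    · omega
  have hC : ∀ b ∈ C, G.Adj v b := by
    intro b hb
    have h1 := hd b (D.CS hb)
    have h2 := D.dg_split b
    have h3 : dg G Z b ≤ m + 1 := D.cZ ▸ dg_le Z b
    have h4 : dg G C b = 0 := dg_none (D.iC b hb)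
    have h5 : dg G B b ≤ m := D.cB ▸ dg_le B b
    split_ifs at h1 with h
    · exact h.symm
    · omega
  have hdZ : ∀ z ∈ Z, dg G S z = dg G Z z + 2 * m := by
    intro z hz
    rw [D.dg_split z, dg_full (S := B) (D.ZB z hz), dg_full (S := C) (D.ZC z hz), D.cB, D.cC]
    ring
  have hZ : ∀ z ∈ Z, z ≠ x → z ≠ y → G.Adj v z := by
    intro z hz h1 h2
    have h3 := hd z (D.ZS hz)
    rw [hdZ z hz] at h3
    have h4 : dg G Z z ≤ 1 := by
      by_contra hc
      obtain ⟨p, hp, q, hq, hpq, zp, zq⟩ := exists_of_two_le_dg (show 2 ≤ dg G Z z by omega)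
      have hp' : p = x ∨ p = y := by
        by_contra h; push Not at h; exact D.iZ z hz h1 h2 p hp h.1 h.2 zp
      have hq' : q = x ∨ q = y := by
        by_contra h; push Not at h; exact D.iZ z hz h1 h2 q hq h.1 h.2 zq
      have := D.st z hz h1 h2
      rcases hp' with rfl | rfl <;> rcases hq' with rfl | rfl <;> tauto
    split_ifs at h3 with h
    · exact h.symm
    · omega
  -- main part, up to symmetry
  have key : ∀ x y : V, Dat G m S Z B C x y → ¬ G.Adj v x →
      (∀ z ∈ Z, z ≠ x → z ≠ y → G.Adj v z) → False := by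
    intro x y D hvx hZ
    have leaf : ∀ p ∈ Z, ∀ p' : V, ¬ G.Adj v p → ∃ w ∈ Z, w ≠ p' ∧ G.Adj p w := by
      intro p hp p' hvp
      have h3 := hd p (D.ZS hp)
      rw [hdZ p hp, if_neg (fun h => hvp h.symm)] at h3
      obtain ⟨q, hq, r, hr, hqr, pq, pr⟩ := exists_of_two_le_dg (show 2 ≤ dg G Z p by omega)
      by_cases e : q = p'
      · exact ⟨r, hr, fun e' => hqr (by rw [e, e']), pr⟩
      · exact ⟨q, hq, e, pq⟩
    obtain ⟨w, hw, wy, xw⟩ := leaf x D.xZ y hvx
    have wx : w ≠ x := xw.ne.symm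
    have hm2 : 2 ≤ m := by
      have : ({x, y, w} : Finset V).card ≤ Z.card := card_le_card (by
        intro a ha
        simp only [mem_insert, mem_singleton] at ha
        rcases ha with rfl | rfl | rfl
        · exact D.xZ
        · exact D.yZ
        · exact hw)
      rw [card_eq_three.2 ⟨x, y, w, D.xy.ne, wx.symm, wy.symm, rfl⟩, D.cZ] at this
      omega
    obtain ⟨b, hb, b', hb', hbb⟩ := one_lt_card.1 (show 1 < B.card by rw [D.cB]; omega)
    obtain ⟨c, hc, c', hc', hcc⟩ := one_lt_card.1 (show 1 < C.card by rw [D.cC]; omega)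
    have H := D.q4 hb hb' hc hc' hbb hcc
    have jt : Jn G b b' c c' v := ⟨hB b hb, hB b' hb', hC c hc, hC c' hc'⟩
    have jz : ∀ z ∈ Z, Jn G b b' c c' z := fun z hz => D.jnZ hz hb hb' hc hc'
    have n1 : ∀ z ∈ Z, v ≠ z := fun z hz e => hv (e ▸ D.ZS hz)
    have vw : G.Adj v w := hZ w hw wx wy
    by_cases hvy : G.Adj v y
    · exact F.c4 H jt (jz y D.yZ) (jz x D.xZ) (jz w hw) hvy D.xy.symm xw vw.symm (n1 _ D.xZ)
        wy.symm
    · obtain ⟨w', hw', wx', yw'⟩ := leaf y D.yZ x hvy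
      have wy' : w' ≠ y := yw'.ne.symm
      have vw' : G.Adj v w' := hZ w' hw' wx' wy'
      have hne : w ≠ w' := by
        rintro rfl
        rcases D.st w hw wx wy with h | h
        · exact h.2 yw'.symm
        · exact h.1 xw.symm
      exact F.p5 H (jz w hw) (jz x D.xZ) (jz y D.yZ) (jz w' hw') jt xw.symm D.xy yw' vw'.symm
        wy hne (n1 _ hw).symm wx'.symm (n1 _ D.xZ).symm (n1 _ D.yZ).symm
  by_cases hvx : G.Adj v x
  · by_cases hvy : G.Adj v y
    · obtain ⟨b, hb⟩ := card_pos.1 (show 0 < B.card by rw [D.cB]; omega)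
      obtain ⟨c, hc⟩ := card_pos.1 (show 0 < C.card by rw [D.cC]; omega)
      exact F.k5 hvx hvy (hB b hb) (hC c hc) D.xy (D.ZB x D.xZ b hb) (D.ZC x D.xZ c hc)
        (D.ZB y D.yZ b hb) (D.ZC y D.yZ c hc) (D.BC b hb c hc)
    · exact key y x D.swapxy hvy (fun z hz h1 h2 => hZ z hz h2 h1)
  · exact key x y D hvx hZ

lemma stepB (F : Forb G) {m : ℕ} (hP : PA G m) (S : Finset V) (hS : S.card = 3 * m + 2) :
    DS G S ≤ 6 * m * m + 10 * m + 2 := by
  by_contra hcon
  have hev := DS_even (G := G) S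
  have hge : 6 * m * m + 10 * m + 4 ≤ DS G S := by
    obtain ⟨k, hk⟩ := hev
    have : 6 * m * m + 10 * m + 2 = 2 * (3 * m * m + 5 * m + 1) := by ring
    have h2 : 6 * m * m + 10 * m + 4 = 2 * (3 * m * m + 5 * m + 2) := by ring
    omega
  have hle : ∀ v ∈ S, DS G (S.erase v) ≤ 6 * m * (m + 1) := fun v hv =>
    (hP _ (by rw [card_erase_of_mem hv, hS]; rfl)).1
  have hdeg : ∀ v ∈ S, 2 * m + 2 ≤ dg G S v := by
    intro v hv
    have h1 := DS_erase (G := G) hv
    have h2 := hle v hv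
    nlinarith
  rcases Nat.eq_zero_or_pos m with rfl | hm
  · obtain ⟨v, hv⟩ := card_pos.1 (show 0 < S.card by omega)
    have h1 := hdeg v hv
    have h2 := dg_add_le (G := G) hv
    omega
  -- sum of degrees
  have hsum : ∑ v ∈ S, DS G (S.erase v) + 2 * DS G S = S.card * DS G S := sum_DS_erase S
  have hsle : ∑ v ∈ S, DS G (S.erase v) ≤ S.card * (6 * m * (m + 1)) := by
    calc ∑ v ∈ S, DS G (S.erase v) ≤ ∑ v ∈ S, 6 * m * (m + 1) := sum_le_sum hle
      _ = S.card * (6 * m * (m + 1)) := by rw [sum_const, smul_eq_mul]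
  have hDle : DS G S ≤ 6 * m * m + 10 * m + 4 := by
    rw [hS] at hsum hsle
    have h3 : 3 * m * DS G S ≤ (3 * m + 2) * (6 * m * (m + 1)) := by nlinarith
    have h4 : (3 * m + 2) * (6 * m * (m + 1)) = 3 * m * (6 * m * m + 10 * m + 4) := by ring
    rw [h4] at h3
    exact Nat.le_of_mul_le_mul_left h3 (by omega)
  have hDeq : DS G S = 6 * m * m + 10 * m + 4 := le_antisymm hDle hge
  have hdeq : ∀ v ∈ S, 2 * m + 2 = dg G S v := by
    have h2 : ∑ v ∈ S, (2 * m + 2) = ∑ v ∈ S, dg G S v := by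
      rw [← DS_eq, hDeq, sum_const, hS, smul_eq_mul]; ring
    exact (sum_eq_sum_iff_of_le hdeg).1 h2
  obtain ⟨v, hv⟩ := card_pos.1 (show 0 < S.card by omega)
  have h1 := DS_erase (G := G) hv
  rw [← hdeq v hv, hDeq] at h1
  have h2 : DS G (S.erase v) = 6 * m * (m + 1) := by
    have : 6 * m * (m + 1) + 2 * (2 * m + 2) = 6 * m * m + 10 * m + 4 := by ring
    omega
  obtain ⟨Z, B, C, x, y, D⟩ := (hP (S.erase v) (by rw [card_erase_of_mem hv, hS]; rfl)).2 hm h2
  refine noReg F hm D (notMem_erase v S) ?_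
  intro u hu
  rw [← dg_erase hv u]
  exact (hdeq u (mem_of_mem_erase hu)).symm

lemma stepC {m : ℕ} (hB : ∀ S : Finset V, S.card = 3 * m + 2 → DS G S ≤ 6 * m * m + 10 * m + 2)
    (S : Finset V) (hS : S.card = 3 * m + 3) : DS G S ≤ 6 * m * m + 14 * m + 6 := by
  by_contra hcon
  have hev := DS_even (G := G) S
  have hge : 6 * m * m + 14 * m + 8 ≤ DS G S := by
    obtain ⟨k, hk⟩ := hev
    have : 6 * m * m + 14 * m + 6 = 2 * (3 * m * m + 7 * m + 3) := by ring
    have h2 : 6 * m * m + 14 * m + 8 = 2 * (3 * m * m + 7 * m + 4) := by ring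
    omega
  have hsum : ∑ v ∈ S, DS G (S.erase v) + 2 * DS G S = S.card * DS G S := sum_DS_erase S
  have hsle : ∑ v ∈ S, DS G (S.erase v) ≤ S.card * (6 * m * m + 10 * m + 2) := by
    calc ∑ v ∈ S, DS G (S.erase v) ≤ ∑ v ∈ S, (6 * m * m + 10 * m + 2) :=
          sum_le_sum fun v hv => hB _ (by rw [card_erase_of_mem hv, hS]; rfl)
      _ = S.card * (6 * m * m + 10 * m + 2) := by rw [sum_const, smul_eq_mul]
  rw [hS] at hsum hsle
  nlinarith

lemma stepA (F : Forb G) {m : ℕ} (hP : PA G m)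
    (hC : ∀ S : Finset V, S.card = 3 * m + 3 → DS G S ≤ 6 * m * m + 14 * m + 6) :
    PA G (m + 1) := by
  intro S hS
  have hS' : S.card = 3 * m + 4 := by omega
  have hsum : ∑ v ∈ S, DS G (S.erase v) + 2 * DS G S = S.card * DS G S := sum_DS_erase S
  have hle : ∀ v ∈ S, DS G (S.erase v) ≤ 6 * m * m + 14 * m + 6 := fun v hv =>
    hC _ (by rw [card_erase_of_mem hv, hS']; rfl)
  have hsle : ∑ v ∈ S, DS G (S.erase v) ≤ S.card * (6 * m * m + 14 * m + 6) := by
    calc ∑ v ∈ S, DS G (S.erase v) ≤ ∑ v ∈ S, (6 * m * m + 14 * m + 6) :=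
          sum_le_sum hle
      _ = S.card * (6 * m * m + 14 * m + 6) := by rw [sum_const, smul_eq_mul]
  have hbd : DS G S ≤ 6 * (m + 1) * (m + 1 + 1) := by
    by_contra hcon
    push Not at hcon
    rw [hS'] at hsum hsle
    nlinarith
  refine ⟨hbd, fun _ hD => ?_⟩
  have hD' : DS G S = 6 * m * m + 18 * m + 12 := by rw [hD]; ring
  rcases Nat.eq_zero_or_pos m with rfl | hm
  · exact km1 (by omega) (by omega)
  have hdeg : ∀ v ∈ S, 2 * m + 3 ≤ dg G S v := by
    intro v hv
    have h1 := DS_erase (G := G) hv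
    have h2 := hle v hv
    rw [hD'] at h1
    omega
  -- low degree vertices
  set Y := S.filter (fun v => dg G S v = 2 * m + 3) with hY
  set N := S.filter (fun v => ¬ dg G S v = 2 * m + 3) with hN
  have hYN : Y.card + N.card = 3 * m + 4 := by
    rw [← hS']; exact card_filter_add_card_filter_not _
  have hNcard : N.card ≤ m := by
    have h1 : ∑ v ∈ Y, dg G S v + ∑ v ∈ N, dg G S v = DS G S := by
      rw [DS_eq]; exact sum_filter_add_sum_filter_not _ _ _
    have h2 : ∑ v ∈ Y, dg G S v = Y.card * (2 * m + 3) := by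
      rw [sum_congr rfl (fun v hv => (mem_filter.1 hv).2), sum_const, smul_eq_mul]
    have h3 : N.card * (2 * m + 4) ≤ ∑ v ∈ N, dg G S v := by
      rw [← smul_eq_mul, ← sum_const]
      refine sum_le_sum fun v hv => ?_
      have := hdeg v (mem_filter.1 hv).1
      have := (mem_filter.1 hv).2
      omega
    rw [h2, hD'] at h1
    have h4 : Y.card = 3 * m + 4 - N.card := by omega
    have h5 : N.card ≤ 3 * m + 4 := by omega
    by_contra hcon
    push Not at hcon
    have : (3 * m + 4) * (2 * m + 3) + N.card ≤ 6 * m * m + 18 * m + 12 := by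
      have : Y.card * (2 * m + 3) + N.card * (2 * m + 4) =
        (Y.card + N.card) * (2 * m + 3) + N.card := by ring
      rw [hYN] at this
      omega
    nlinarith
  -- sets of neighbours
  have hsub : ∀ T : Finset V, T ⊆ S → m < T.card → ∃ v ∈ T, dg G S v = 2 * m + 3 := by
    intro T hT hTc
    by_contra hcon
    push Not at hcon
    have : T ⊆ N := fun v hv => mem_filter.2 ⟨hT hv, hcon v hv⟩
    have := card_le_card this
    omega
  obtain ⟨y1, y1S, y1d⟩ := hsub S (Subset.refl _) (by omega)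
  obtain ⟨y2, y2S, y2d⟩ := hsub (S.filter (G.Adj y1)) (filter_subset _ _) (by
    have : (S.filter (G.Adj y1)).card = dg G S y1 := rfl
    omega)
  have y12 : G.Adj y1 y2 := (mem_filter.1 y2S).2
  replace y2S := (mem_filter.1 y2S).1
  obtain ⟨y3, y3S, y3d⟩ := hsub (S.filter (G.Adj y1) ∩ S.filter (G.Adj y2))
    (inter_subset_left.trans (filter_subset _ _)) (by
      have h1 : (S.filter (G.Adj y1)).card = dg G S y1 := rfl
      have h2 : (S.filter (G.Adj y2)).card = dg G S y2 := rfl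
      have h3 := card_union_add_card_inter (S.filter (G.Adj y1)) (S.filter (G.Adj y2))
      have h4 : (S.filter (G.Adj y1) ∪ S.filter (G.Adj y2)).card ≤ S.card :=
        card_le_card (union_subset (filter_subset _ _) (filter_subset _ _))
      omega)
  have y13 : G.Adj y1 y3 := (mem_filter.1 (mem_inter.1 y3S).1).2
  have y23 : G.Adj y2 y3 := (mem_filter.1 (mem_inter.1 y3S).2).2
  replace y3S := (mem_filter.1 (mem_inter.1 y3S).1).1
  -- remove the triangle
  set S1 := S.erase y1 with hS1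
  have m2 : y2 ∈ S1 := mem_erase.2 ⟨y12.ne.symm, y2S⟩
  have m31 : y3 ∈ S1 := mem_erase.2 ⟨y13.ne.symm, y3S⟩
  set S2 := S1.erase y2 with hS2
  have m3 : y3 ∈ S2 := mem_erase.2 ⟨y23.ne.symm, m31⟩
  set S3 := S2.erase y3 with hS3
  have c1 : S3.card = 3 * m + 1 := by
    rw [hS3, card_erase_of_mem m3, hS2, card_erase_of_mem m2, hS1, card_erase_of_mem y1S, hS']
    rfl
  have e1 := DS_erase (G := G) y1S
  have e2 := DS_erase (G := G) m2
  have e3 := DS_erase (G := G) m3
  rw [← hS1] at e1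
  rw [← hS2] at e2
  rw [← hS3] at e3
  have g1 : ∀ u, dg G S u = dg G S1 u + if G.Adj u y1 then 1 else 0 := dg_erase y1S
  have g2 : ∀ u, dg G S1 u = dg G S2 u + if G.Adj u y2 then 1 else 0 := dg_erase m2
  have g3 : ∀ u, dg G S2 u = dg G S3 u + if G.Adj u y3 then 1 else 0 := dg_erase m3
  have q2 : dg G S1 y2 = 2 * m + 2 := by
    have := g1 y2; rw [if_pos y12.symm] at this; omega
  have q3 : dg G S2 y3 = 2 * m + 1 := by
    have := g1 y3; rw [if_pos y13.symm] at this
    have h2 := g2 y3; rw [if_pos y23.symm] at h2; omega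
  have hDS3 : DS G S3 = 6 * m * (m + 1) := by
    have : 6 * m * (m + 1) + 2 * (2 * m + 3) + 2 * (2 * m + 2) + 2 * (2 * m + 1)
      = 6 * m * m + 18 * m + 12 := by ring
    omega
  have r1 : dg G S3 y1 = 2 * m + 1 := by
    have h1 := g1 y1; have h2 := g2 y1; have h3 := g3 y1
    rw [if_neg G.irrefl] at h1
    rw [if_pos y12] at h2
    rw [if_pos y13] at h3
    omega
  have r2 : dg G S3 y2 = 2 * m + 1 := by
    have h2 := g2 y2; have h3 := g3 y2
    rw [if_neg G.irrefl] at h2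
    rw [if_pos y23] at h3
    omega
  have r3 : dg G S3 y3 = 2 * m + 1 := by
    have h3 := g3 y3
    rw [if_neg G.irrefl] at h3
    omega
  have nn1 : y1 ∉ S3 := by simp [hS3, hS2, hS1]
  have nn2 : y2 ∉ S3 := by simp [hS3, hS2]
  have nn3 : y3 ∉ S3 := by simp [hS3]
  have hSe : S = insert y1 (insert y2 (insert y3 S3)) := by
    rw [hS3, insert_erase m3, hS2, insert_erase m2, hS1, insert_erase y1S]
  rw [hSe]
  rcases Nat.lt_or_ge m 2 with h | h
  · have hm1 : m = 1 := by omega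
    subst hm1
    exact ext_one F (by omega) (by omega) nn1 nn2 nn3 y12 y13 y23 r1 r2 r3
  · obtain ⟨Z, B, C, x, y, D⟩ := (hP S3 c1).2 hm hDS3
    exact D.ext6 F h nn1 nn2 nn3 y12 y13 y23 r1 r2 r3

lemma PA_all (F : Forb G) (m : ℕ) : PA G m := by
  induction m with
  | zero =>
    intro S hS
    obtain ⟨a, ha⟩ := card_eq_one.1 (by simpa using hS)
    refine ⟨?_, fun h => absurd h (by omega)⟩
    rw [ha, DS_eq, sum_singleton]
    have := dg_add_le (G := G) (mem_singleton_self a)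
    simp at this
    omega
  | succ m ih => exact stepA F ih (stepC (stepB F ih))

end Pool.Agent.H4.G61

namespace H20

open Pool.Agent.H4.G61

/-- **Theorem A.** -/
theorem theoremA {V : Type*} [DecidableEq V] (G : SimpleGraph V) [DecidableRel G.Adj]
    (h5 : ¬ HasPat G 5 [])
    (h8 : ¬ HasPat G 8 [(0, 1), (2, 3), (4, 5), (6, 7)])
    (h9 : ¬ HasPat G 9 [(0, 1), (2, 3), (4, 6), (4, 7), (4, 8), (5, 7), (5, 8), (6, 8)])
    (S : Finset V) : DS G S ≤ 2 * ((S.card - 1) * (S.card + 2) / 3) := by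
  have F : Forb G := ⟨h5, h8, h9⟩
  rcases Nat.eq_zero_or_pos S.card with h0 | hpos
  · rw [Finset.card_eq_zero.1 h0]; simp [DS]
  obtain ⟨m, hm | hm | hm⟩ : ∃ m, S.card = 3 * m + 1 ∨ S.card = 3 * m + 2 ∨ S.card = 3 * m + 3 :=
    ⟨(S.card - 1) / 3, by omega⟩
  · have h := (PA_all F m S hm).1
    rw [hm]
    have : (3 * m + 1 - 1) * (3 * m + 1 + 2) / 3 = 3 * m * (m + 1) := by
      have : (3 * m + 1 - 1) * (3 * m + 1 + 2) = 3 * (3 * m * (m + 1)) := by
        rw [Nat.add_sub_cancel]; ring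
      rw [this]; exact Nat.mul_div_cancel_left _ (by norm_num)
    rw [this]
    calc _ ≤ _ := h
      _ = _ := by ring
  · have h := stepB F (PA_all F m) S hm
    rw [hm]
    have : (3 * m + 2 - 1) * (3 * m + 2 + 2) / 3 = 3 * m * m + 5 * m + 1 := by
      have : (3 * m + 2 - 1) * (3 * m + 2 + 2) = 1 + 3 * (3 * m * m + 5 * m + 1) := by
        rw [show 3 * m + 2 - 1 = 3 * m + 1 by omega]; ring
      rw [this, Nat.add_mul_div_left _ _ (by norm_num : 0 < 3)]; omega
    rw [this]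
    calc _ ≤ _ := h
      _ = _ := by ring
  · have h := stepC (stepB F (PA_all F m)) S hm
    rw [hm]
    have : (3 * m + 3 - 1) * (3 * m + 3 + 2) / 3 = 3 * m * m + 7 * m + 3 := by
      have : (3 * m + 3 - 1) * (3 * m + 3 + 2) = 1 + 3 * (3 * m * m + 7 * m + 3) := by
        rw [show 3 * m + 3 - 1 = 3 * m + 2 by omega]; ring
      rw [this, Nat.add_mul_div_left _ _ (by norm_num : 0 < 3)]; omega
    rw [this]
    calc _ ≤ _ := h
      _ = _ := by ring

end H20
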