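import Pool.Agent.H20.GraphIface61d

/-! Forbidden patterns used in Theorem A of the project MP_61d55c_co. -/

namespace Pool.Agent.H4.G61

open H20

variable {V : Type*} [DecidableEq V] (G : SimpleGraph V) [DecidableRel G.Adj]

/-- The three forbidden patterns. -/
structure Forb : Prop where
  h5 : ¬ HasPat G 5 []
  h8 : ¬ HasPat G 8 [(0, 1), (2, 3), (4, 5), (6, 7)]
  h9 : ¬ HasPat G 9 [(0, 1), (2, 3), (4, 6), (4, 7), (4, 8), (5, 7), (5, 8), (6, 8)]

variable {G}

lemma Forb.k5 (F : Forb G) {a b c d e : V} (h1 : G.Adj a b) (h2 : G.Adj a c) (h3 : G.Adj a d)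
    (h4 : G.Adj a e) (h5 : G.Adj b c) (h6 : G.Adj b d) (h7 : G.Adj b e) (h8 : G.Adj c d)
    (h9 : G.Adj c e) (h10 : G.Adj d e) : False := by
  refine F.h5 ⟨![a, b, c, d, e], ?_, ?_⟩
  · intro i j hij
    have n1 := h1.ne; have n2 := h2.ne; have n3 := h3.ne; have n4 := h4.ne; have n5 := h5.ne
    have n6 := h6.ne; have n7 := h7.ne; have n8 := h8.ne; have n9 := h9.ne; have n10 := h10.ne
    have m1 := n1.symm; have m2 := n2.symm; have m3 := n3.symm; have m4 := n4.symm
    have m5 := n5.symm; have m6 := n6.symm; have m7 := n7.symm; have m8 := n8.symm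
    have m9 := n9.symm; have m10 := n10.symm
    fin_cases i <;> fin_cases j <;> first | rfl | (exfalso; simp at hij; tauto)
  · intro i j hij _
    fin_cases i <;> fin_cases j <;> first | (exfalso; simp at hij; done) | (simp; assumption)

/-- the four vertices `b, b', c, c'` form a `K_{2,2}`. -/
structure Q4 (G : SimpleGraph V) (b b' c c' : V) : Prop where
  nb : b ≠ b'
  nc : c ≠ c'
  a1 : G.Adj b c
  a2 : G.Adj b c'
  a3 : G.Adj b' c
  a4 : G.Adj b' c'

/-- `v` is adjacent to all four. -/
structure Jn (G : SimpleGraph V) (b b' c c' v : V) : Prop where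
  a1 : G.Adj v b
  a2 : G.Adj v b'
  a3 : G.Adj v c
  a4 : G.Adj v c'

lemma Forb.c4 (F : Forb G) {b b' c c' p q r s : V} (H : Q4 G b b' c c')
    (hp : Jn G b b' c c' p) (hq : Jn G b b' c c' q) (hr : Jn G b b' c c' r)
    (hs : Jn G b b' c c' s) (h1 : G.Adj p q) (h2 : G.Adj q r) (h3 : G.Adj r s) (h4 : G.Adj s p)
    (n1 : p ≠ r) (n2 : q ≠ s) : False := by
  refine F.h8 ⟨![p, r, q, s, b, b', c, c'], ?_, ?_⟩
  · have k0 := H.nb; have k1 := H.nc; have k2 := H.a1.ne; have k3 := H.a2.ne
    have k4 := H.a3.ne; have k5 := H.a4.ne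
    have p1 := hp.a1.ne; have p2 := hp.a2.ne; have p3 := hp.a3.ne; have p4 := hp.a4.ne
    have q1 := hq.a1.ne; have q2 := hq.a2.ne; have q3 := hq.a3.ne; have q4 := hq.a4.ne
    have r1 := hr.a1.ne; have r2 := hr.a2.ne; have r3 := hr.a3.ne; have r4 := hr.a4.ne
    have s1 := hs.a1.ne; have s2 := hs.a2.ne; have s3 := hs.a3.ne; have s4 := hs.a4.ne
    have e1 := h1.ne; have e2 := h2.ne; have e3 := h3.ne; have e4 := h4.ne
    have := k0.symm; have := k1.symm; have := k2.symm; have := k3.symm
    have := k4.symm; have := k5.symm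
    have := p1.symm; have := p2.symm; have := p3.symm; have := p4.symm
    have := q1.symm; have := q2.symm; have := q3.symm; have := q4.symm
    have := r1.symm; have := r2.symm; have := r3.symm; have := r4.symm
    have := s1.symm; have := s2.symm; have := s3.symm; have := s4.symm
    have := e1.symm; have := e2.symm; have := e3.symm; have := e4.symm
    have := n1.symm; have := n2.symm
    intro i j hij
    fin_cases i <;> fin_cases j <;> first | rfl | (exfalso; simp at hij; contradiction)
  · have k2 := H.a1; have k3 := H.a2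
    have k4 := H.a3; have k5 := H.a4
    have p1 := hp.a1; have p2 := hp.a2; have p3 := hp.a3; have p4 := hp.a4
    have q1 := hq.a1; have q2 := hq.a2; have q3 := hq.a3; have q4 := hq.a4
    have r1 := hr.a1; have r2 := hr.a2; have r3 := hr.a3; have r4 := hr.a4
    have s1 := hs.a1; have s2 := hs.a2; have s3 := hs.a3; have s4 := hs.a4
    have := h1.symm; have := h2.symm; have := h3.symm; have := h4.symm
    intro i j hij hL
    fin_cases i <;> fin_cases j <;>
      first | (exfalso; simp at hij; done) | (exfalso; simp at hL; done) | (simp; assumption)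

lemma Forb.p5 (F : Forb G) {b b' c c' p q r s t : V} (H : Q4 G b b' c c')
    (hp : Jn G b b' c c' p) (hq : Jn G b b' c c' q) (hr : Jn G b b' c c' r)
    (hs : Jn G b b' c c' s) (ht : Jn G b b' c c' t) (h1 : G.Adj p q) (h2 : G.Adj q r)
    (h3 : G.Adj r s) (h4 : G.Adj s t)
    (n1 : p ≠ r) (n2 : p ≠ s) (n3 : p ≠ t) (n4 : q ≠ s) (n5 : q ≠ t) (n6 : r ≠ t) : False := by
  refine F.h9 ⟨![b, b', c, c', p, q, r, s, t], ?_, ?_⟩
  · have k0 := H.nb; have k1 := H.nc; have k2 := H.a1.ne; have k3 := H.a2.ne
    have k4 := H.a3.ne; have k5 := H.a4.ne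
    have p1 := hp.a1.ne; have p2 := hp.a2.ne; have p3 := hp.a3.ne; have p4 := hp.a4.ne
    have q1 := hq.a1.ne; have q2 := hq.a2.ne; have q3 := hq.a3.ne; have q4 := hq.a4.ne
    have r1 := hr.a1.ne; have r2 := hr.a2.ne; have r3 := hr.a3.ne; have r4 := hr.a4.ne
    have s1 := hs.a1.ne; have s2 := hs.a2.ne; have s3 := hs.a3.ne; have s4 := hs.a4.ne
    have t1 := ht.a1.ne; have t2 := ht.a2.ne; have t3 := ht.a3.ne; have t4 := ht.a4.ne
    have e1 := h1.ne; have e2 := h2.ne; have e3 := h3.ne; have e4 := h4.ne
    have := k0.symm; have := k1.symm; have := k2.symm; have := k3.symm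
    have := k4.symm; have := k5.symm
    have := p1.symm; have := p2.symm; have := p3.symm; have := p4.symm
    have := q1.symm; have := q2.symm; have := q3.symm; have := q4.symm
    have := r1.symm; have := r2.symm; have := r3.symm; have := r4.symm
    have := s1.symm; have := s2.symm; have := s3.symm; have := s4.symm
    have := t1.symm; have := t2.symm; have := t3.symm; have := t4.symm
    have := e1.symm; have := e2.symm; have := e3.symm; have := e4.symm
    have := n1.symm; have := n2.symm; have := n3.symm; have := n4.symm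
    have := n5.symm; have := n6.symm
    intro i j hij
    fin_cases i <;> fin_cases j <;> first | rfl | (exfalso; simp at hij; contradiction)
  · have k2 := H.a1; have k3 := H.a2
    have k4 := H.a3; have k5 := H.a4
    have p1 := hp.a1.symm; have p2 := hp.a2.symm; have p3 := hp.a3.symm; have p4 := hp.a4.symm
    have q1 := hq.a1.symm; have q2 := hq.a2.symm; have q3 := hq.a3.symm; have q4 := hq.a4.symm
    have r1 := hr.a1.symm; have r2 := hr.a2.symm; have r3 := hr.a3.symm; have r4 := hr.a4.symm
    have s1 := hs.a1.symm; have s2 := hs.a2.symm; have s3 := hs.a3.symm; have s4 := hs.a4.symm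
    have t1 := ht.a1.symm; have t2 := ht.a2.symm; have t3 := ht.a3.symm; have t4 := ht.a4.symm
    intro i j hij hL
    fin_cases i <;> fin_cases j <;>
      first | (exfalso; simp at hij; done) | (exfalso; simp at hL; done) | (simp; assumption)

end Pool.Agent.H4.G61
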